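import Pool.Agent.R852.TL.Fin

/-!
# The monodromy conjecture at the origin for products of powers of forms, their sums, and
# nondegenerate polynomials

Let `𝓘` and `𝓗` be the least classes of germs of ideals and of hypersurfaces at the origin
(`TQ WeakL WeakHyp false` and `TQ WeakL WeakHyp true`, together with their local topological zeta
functions `Z`) with the following properties.

* `𝓘` contains the unit ideal; the powers `(x ^ m)`; all non-zero ideals of `ℂ[x, y]`; the ideals of
  `ℂ[x₀, x₁, x₂]` generated by forms of the same degree, three of which are algebraically independent;
  the ideals generated by forms of the same degree without a common zero outside the origin; the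
  polynomials with very general coefficients at the vertices of the Newton polyhedron; the
  products `∏ t, I_t ^ a t` of ideals in any number of variables whose numerical data come from Rees
  divisors near the origin; the products of powers of the ideals of linear subspaces for which the
  wonderful model has only Rees flats;
  the polynomials which are nondegenerate with respect to their Newton polytope.
* `𝓗` contains the plane curves and the polynomials with very general coefficients at the vertices
  of the Newton polyhedron and the
  nondegenerate polynomials whose zeta function has at most a simple pole at `-1`.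
* The principal ideals `(g)` and `(g ^ k)`, `g` in `𝓗`, are in `𝓘`.
* `𝓘` is closed under sums and products in disjoint sets of variables.
* If the ideal `h ∏_t (f_{t, j})_j ^ a_t` is in `𝓘`, where `h` and the `f_{t, j}` are any polynomials in
  the same variables `x`, then `h(x) ∏_t (∑_j y_{t, j} f_{t, j}(x)) ^ a_t` is in `𝓗`, with further
  variables `y_{t, j}`; there is no condition on the poles at `-1`.
* `𝓗` contains the Thom-Sebastiani sums `∑ y_j f_j(x) + g(z)` for `(f_j)` in `𝓘` and `g` in `𝓗`,
  `g(0) = 0`, and is closed under dropping variables which do not occur.

For example, the germ of `h(x_1, x_2) ∏_t (∑_j y_{t, j} f_{t, j}(x_1, x_2)) ^ a_t + ∑_j w_j g_j(z)` is in `𝓗` for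
all polynomials `h ≠ 0`, `f_{t, j}` in two variables and `g_j` in two other variables; and if `F` is this
germ, then the `k`-th power of it can be used as one of the generators in disjoint variables in the
next step.

New in comparison with the Thom-Sebastiani class (`Pool/Agent/Y230/TL`) are the products of powers
with a factor `h` as members of `𝓗` (which can be used in further Thom-Sebastiani sums), the powers,
and the ideals with Rees divisors. In `Pool/Agent/R852/TL`:
* `lm_form`: if `(s - z) ^ n` divides all local functional equations of the ideal
  `h ∏_t (f_{t, j})_j ^ a_t`, then `(s - z) ^ (n + m)` divides the ones of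
  `F = h ∏_t (∑_j y_{t, j} f_{t, j}) ^ a_t`, where `m` is the number of the `t` with `a_t z + i = 0` for some
  `1 ≤ i ≤ a_t` (`b_F(s) = ∏_t ∏_{1 ≤ i ≤ a_t} (a_t s + i) b'(s)`, `locEq_strong`);
* `rf_of_double`: if `(s + 1) ^ 2` divides all local functional equations of `g`, then
  `B(0, -1) = 0` for all equations `(s + 1) B(x, s) g ^ s = P(s) g ^ (s + 1)` with polynomial coefficients
  `B(x, s)`; this is the condition which is needed for the Thom-Sebastiani sums if the zeta function
  has a double pole at `-1`;
* `loc_shift`: the local functional equations of `g ^ k` give the ones of `g`, `b_g(s) ∣ b_{g ^ k}((s - j) / k)`.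
-/

set_option autoImplicit false

namespace Pool.Agent.Results.MP_aa7fc1_ag.PowersOfFormsLocal

open MvPolynomial Pool.Agent.W574.SM Pool.Agent.W574.RO Pool.Agent.Y230.TL Pool.Agent.R852.TL
open Pool.Agent.H628R4.TP (IsLocalBFunction)

/-- **The monodromy conjecture at the origin for the germs of the class.** Let `F` be a polynomial with
`TQ WeakL WeakHyp false (F) Z`, that is, the germ of `(F)` at the origin is in the class `𝓘` which
is described above (for instance, `F` is in `𝓗`), and `Z` is its local topological zeta function. Let
`b` satisfy a functional equation `b(s) F ^ s = P(s) F ^ (s + 1)`, where `P(s)` is a differential operator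
with formal power series coefficients at the origin, for instance, let `b` be the local
Bernstein-Sato polynomial `b_F`. Then, for every pole `s₀` of `Z`, one of the numbers `s₀ - i`,
`i = 0, 1, 2, …`, is a root of `b`. By the theorem of Malgrange and Kashiwara, `exp(2 π i s₀)` is then an
eigenvalue of the monodromy at some point of `{F = 0}` near the origin. -/
theorem result {σ : Type} (F : MvPolynomial σ ℂ) (Z : RatFunc ℂ)
    (h : TQ WeakL WeakHyp false ⟨σ, Fin 1, fun _ => F⟩ Z) (b : Polynomial ℂ)
    (hb : IsLocalBFunction F b) (s₀ : ℂ) (hs : Z.denom.eval s₀ = 0) :
    ∃ i : ℕ, b.eval (s₀ - i) = 0 :=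
  tq_weak F Z h b hb s₀ hs

end Pool.Agent.Results.MP_aa7fc1_ag.PowersOfFormsLocal
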