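import Pool.Agent.Y230.TL.Fin
import Pool.Agent.Y230.TL.A
import Pool.Agent.Y230.TL.U
import Pool.Agent.Y64.TL.ExpB
import Pool.Agent.Y475.TL.L
import Pool.Agent.Y448.TL.J

/-!
# The monodromy conjecture for local topological zeta functions: Thom-Sebastiani sums

Let `𝓘` and `𝓗` be the least classes of germs of ideals and of hypersurfaces at the origin, with
their local topological zeta functions, with the following properties.

* `𝓘` contains the unit ideal; the powers `(x ^ m)`; all non-zero ideals of `ℂ[x, y]`; the ideals of
  `ℂ[x₀, x₁, x₂]` generated by forms of the same degree, three of which are algebraically independent;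
  the ideals generated by forms of the same degree without a common zero outside the origin; the
  principal ideals `(g)` with very general coefficients at the vertices of the Newton polyhedron; the
  principal ideals `(g)`, `g(0) = 0`, for all `g` which are nondegenerate with respect to the Newton
  polytope; the principal ideals `(h)` with `h` in `𝓗`; and `𝓘` is closed under sums and products
  in disjoint sets of variables.
* `𝓗` contains the plane curves, the polynomials with very general coefficients at the vertices of
  the Newton polyhedron and the nondegenerate polynomials `g`, `g(0) = 0`, all of them if the zeta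
  function has at most a simple pole at `-1`; for `(f_j)` in `𝓘` and `g` in `𝓗`, `g(0) = 0`, it
  contains `∑ y_j f_j(x)` and `∑ y_j f_j(x) + g(z)`, with new variables `y_j`; and `𝓗` is closed under
  dropping variables which do not occur.

We prove the monodromy conjecture for the germs `F` with `(F)` in `𝓘`, and for the products of powers
`F = ∏ t, (∑_j y_{t,j} f_{t,j}(x)) ^ a t` such that `∏ t, (f_{t,j})_j ^ a t` is in `𝓘`: for
every pole `s₀` of the local topological zeta function there is `i ∈ ℕ` such that `s₀ - i` is
a root of the local Bernstein-Sato polynomial of `F`; by the theorem of Malgrange and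
Kashiwara, `exp(2 π i s₀)` is an eigenvalue of the monodromy at a point near the origin. The germs
without nondegenerate polynomials in the construction are treated in
`Results/MP_6163c8_ag/ThomSebastianiLocal`.
-/

set_option autoImplicit false

namespace Pool.Agent.Results.MP_aa7fc1_ag.ThomSebastianiGerms

open MvPolynomial Pool.Agent.W574.SM Pool.Agent.W574.RO Pool.Agent.H628R4.TP Pool.Agent.TH192.DT
  Pool.Agent.Y229 Pool.Agent.Y230.TL

/-- `Germ F Z`: one of the following germs `F` at the origin, with its local topological zeta function
`Z`. -/
inductive Germ : {V : Type} → MvPolynomial V ℂ → RatFunc ℂ → Prop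
  /-- the hypersurfaces `F` for which the ideal `(F)` is in the class -/
  | hyp {V : Type} (F : MvPolynomial V ℂ) (Z : RatFunc ℂ)
      (h : TT (Fi WeakLocal) WeakHyp false ⟨V, Fin 1, fun _ => F⟩ Z) : Germ F Z
  /-- the products of powers `∏ t, (∑_j y_{t,j} f_{t,j}(x)) ^ a t`, `a t ≥ 1`, for which the ideal
  `∏ t, (f_{t,j})_j ^ a t` is in the class, with the zeta function `Z'`; their zeta function is
  `Z' ∏ t, 1 / (1 + a t s)` -/
  | pow {σ T : Type} [Finite σ] [Fintype T] [DecidableEq T] [Nonempty T] {κ : T → Type}
      [∀ t, Fintype (κ t)] (a : T → ℕ) (ha : ∀ t, 1 ≤ a t)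
      (f : (t : T) → κ t → MvPolynomial σ ℂ) (Z' : RatFunc ℂ)
      (h : TT (Fi WeakLocal) WeakHyp false (powFam a f) Z') :
      Germ (powProd a f) (Z' * ∏ t, fac (a t) 1)

/-- **The monodromy conjecture for local topological zeta functions of Thom-Sebastiani sums.** Let
`TT (Fi WeakLocal) WeakHyp c A Z` be the classes of germs of ideals (`c = false`) and of
hypersurfaces (`c = true`) at the origin with their local topological zeta functions `Z` which are
obtained from the ideals in `WeakLocal` (with finitely many variables, `Fi`) and the
hypersurfaces in `WeakHyp` by sums and products in disjoint sets of variables, by `∑ y_j f_j(x)` and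
by `∑ y_j f_j(x) + g(z)`. Let `Germ F Z`: either `(F)` with `Z` is in the class of ideals, or
`F = ∏ t, (∑_j y_{t,j} f_{t,j}(x)) ^ a t`, the ideal `∏ t, (f_{t,j})_j ^ a t` with the zeta
function `Z'` is in the class of ideals, and `Z = Z' ∏ t, 1 / (1 + a t s)`.

Let `b` satisfy a functional equation `b(s) F ^ s = P(s) F ^ (s + 1)`, where `P(s)` is a differential
operator with formal power series coefficients at the origin. Then for every pole `s₀` of `Z` there
is `i ∈ ℕ` with `b(s₀ - i) = 0`. -/
theorem result {V : Type} (F : MvPolynomial V ℂ) (Z : RatFunc ℂ) (hF : Germ F Z)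
    (b : Polynomial ℂ) (hb : IsLocalBFunction F b) (s₀ : ℂ) (hs : Z.denom.eval s₀ = 0) :
    ∃ i : ℕ, b.eval (s₀ - i) = 0 := by
  classical
  have hJ : StJ := Pool.Agent.Y448.TL.tJ tA Pool.Agent.Y64.TL.tB
  have hU : StU := tU Pool.Agent.Y64.TL.tB
  have hL : StL := Pool.Agent.Y475.TL.tL
  cases hF with
  | hyp _ _ h => exact tl_weak hJ hU hL F Z h b hb s₀ hs
  | pow a ha f Z' h => exact tl_weak_pow hJ hU hL a ha f Z' h b hb s₀ hs

end Pool.Agent.Results.MP_aa7fc1_ag.ThomSebastianiGerms
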